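import Pool.Agent.Helper99.MS.Est1

/-! Block R3 of project EQ: lower bound at the origin of a Fejer smoothing. -/

set_option autoImplicit false

namespace Pool.Agent.Helper63.EQ

open MeasureTheory Set Filter Topology
open Pool.Agent.Helper99.MS

/-- R3: lower bound at the origin of a Fejer smoothing -/
theorem low_gen {g : ℝ → ℂ} (hg : Continuous g) {C₂ : ℝ} (hC₂ : 0 ≤ C₂) (hb : ∀ v, ‖g v‖ ≤ C₂ * ell v) {H E θ θ₁ L : ℝ}
    (hH : 0 ≤ H) (hE : 0 ≤ E) (hθ : 0 < θ) (hθ₁ : θ ≤ θ₁) (hθ₁' : θ₁ ≤ 1) (hL : 1 ≤ L)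
    (h1 : ∀ v, |v| ≤ θ → H - E ≤ (g v).re) (h2 : ∀ v, |v| ≤ θ₁ → -E ≤ (g v).re) :
    2 * Real.pi * (H - E) - H * (16 / (L * θ)) - C₂ * (32 / (L * θ₁) + 96 / L) ≤ (∫ v : ℝ, g v * (KL L v : ℂ)).re := by
  have hL0 : 0 < L := by linarith
  have hθ₁0 : 0 < θ₁ := lt_of_lt_of_le hθ hθ₁
  obtain ⟨e, hi⟩ := re_int hg hC₂ hb hL0 0
  simp only [add_zero] at e hi
  rw [e]
  have i1 := (KL_int hL0).const_mul (H - E)
  have i2 := ((KL_int hL0).indicator (measurableSet_Icc (a := -θ) (b := θ)).compl).const_mul H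
  have i3 := ((KL_int hL0).indicator (measurableSet_Icc (a := -θ₁) (b := θ₁)).compl).const_mul (2 * C₂)
  have i4 := ((ell_KL_int hL0).indicator (measurableSet_Icc (a := -(1:ℝ)) (b := 1)).compl).const_mul C₂
  have i12 : Integrable (fun v => (H - E) * KL L v - H * ((Set.Icc (-θ) θ)ᶜ.indicator (KL L) v)) := i1.sub i2
  have i123 : Integrable (fun v => (H - E) * KL L v - H * ((Set.Icc (-θ) θ)ᶜ.indicator (KL L) v) -
      2 * C₂ * ((Set.Icc (-θ₁) θ₁)ᶜ.indicator (KL L) v)) := i12.sub i3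
  have i1234 : Integrable (fun v => (H - E) * KL L v - H * ((Set.Icc (-θ) θ)ᶜ.indicator (KL L) v) -
      2 * C₂ * ((Set.Icc (-θ₁) θ₁)ᶜ.indicator (KL L) v) -
      C₂ * ((Set.Icc (-(1:ℝ)) 1)ᶜ.indicator (fun v => ell v * KL L v) v)) := i123.sub i4
  have hlow : ∫ v, (((((H - E) * KL L v) - H * ((Set.Icc (-θ) θ)ᶜ.indicator (KL L) v)) -
      2 * C₂ * ((Set.Icc (-θ₁) θ₁)ᶜ.indicator (KL L) v)) -
      C₂ * ((Set.Icc (-(1:ℝ)) 1)ᶜ.indicator (fun v => ell v * KL L v) v)) ≤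
      ∫ v, (g v).re * KL L v := by
    apply integral_mono i1234 hi
    intro v
    simp only
    have hK := KL_nonneg hL0 v
    have hl := one_le_ell v
    have hre := (abs_le.1 (Complex.abs_re_le_norm (g v))).1
    have hg0 := hb v
    by_cases hv : v ∈ Set.Icc (-θ) θ
    · have hv1 : v ∈ Set.Icc (-θ₁) θ₁ := ⟨by linarith [hv.1], by linarith [hv.2]⟩
      have hv2 : v ∈ Set.Icc (-(1:ℝ)) 1 := ⟨by linarith [hv1.1], by linarith [hv1.2]⟩
      rw [Set.indicator_of_notMem (show v ∉ (Set.Icc (-θ) θ)ᶜ from fun h => h hv),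
        Set.indicator_of_notMem (show v ∉ (Set.Icc (-θ₁) θ₁)ᶜ from fun h => h hv1),
        Set.indicator_of_notMem (show v ∉ (Set.Icc (-(1:ℝ)) 1)ᶜ from fun h => h hv2)]
      have h5 := mul_le_mul_of_nonneg_right (h1 v (abs_le.2 hv)) hK
      linarith
    · rw [Set.indicator_of_mem (show v ∈ (Set.Icc (-θ) θ)ᶜ from hv)]
      by_cases hv1 : v ∈ Set.Icc (-θ₁) θ₁
      · have hv2 : v ∈ Set.Icc (-(1:ℝ)) 1 := ⟨by linarith [hv1.1], by linarith [hv1.2]⟩
        rw [Set.indicator_of_notMem (show v ∉ (Set.Icc (-θ₁) θ₁)ᶜ from fun h => h hv1),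
          Set.indicator_of_notMem (show v ∉ (Set.Icc (-(1:ℝ)) 1)ᶜ from fun h => h hv2)]
        have h5 := mul_le_mul_of_nonneg_right (h2 v (abs_le.2 hv1)) hK
        linarith
      · rw [Set.indicator_of_mem (show v ∈ (Set.Icc (-θ₁) θ₁)ᶜ from hv1)]
        by_cases hv2 : v ∈ Set.Icc (-(1:ℝ)) 1
        · rw [Set.indicator_of_notMem (show v ∉ (Set.Icc (-(1:ℝ)) 1)ᶜ from fun h => h hv2)]
          have h3 : ell v ≤ 2 := by
            have := ell_le_linear v
            have := abs_le.2 hv2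
            linarith
          have h4 : -E - 2 * C₂ ≤ (g v).re := by
            have := mul_le_mul_of_nonneg_left h3 hC₂
            linarith
          have h5 := mul_le_mul_of_nonneg_right h4 hK
          linarith
        · rw [Set.indicator_of_mem (show v ∈ (Set.Icc (-(1:ℝ)) 1)ᶜ from hv2)]
          have h4 : -E - 2 * C₂ - C₂ * ell v ≤ (g v).re := by linarith
          have h5 := mul_le_mul_of_nonneg_right h4 hK
          linarith
  refine le_trans ?_ hlow
  rw [integral_sub i123 i4, integral_sub i12 i3, integral_sub i1 i2, integral_const_mul,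
    integral_const_mul, integral_const_mul, integral_const_mul, KL_tot hL0, integral_indicator (measurableSet_Icc).compl,
    integral_indicator (measurableSet_Icc).compl, integral_indicator (measurableSet_Icc).compl]
  have t1 := mul_le_mul_of_nonneg_left (KL_tail hL0 hθ) hH
  have t2 := mul_le_mul_of_nonneg_left (KL_tail hL0 hθ₁0) (show 0 ≤ 2 * C₂ by linarith)
  have t3 := ell_KL_tail hL0 (le_refl (1:ℝ))
  rw [Real.sqrt_one, mul_one] at t3
  have t4 := mul_le_mul_of_nonneg_left t3 hC₂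
  have t5 : 2 * C₂ * (16 / (L * θ₁)) = C₂ * (32 / (L * θ₁)) := by ring
  linarith

end Pool.Agent.Helper63.EQ
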