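import Pool.Agent.Helper99.MS.Kern1

/-! Block Z5 of project EQ: moments of the kernel. -/

set_option autoImplicit false

namespace Pool.Agent.Helper63.EQ

open MeasureTheory Set Filter Topology
open Pool.Agent.Helper99.MS

private lemma XX_far {t : ℝ} (ht : 1 ≤ |t|) : XX t ≤ -(1 / 4) - (|t| - 1) / 2 := by
  rcases le_total 0 t with h | h
  · rw [abs_of_nonneg h] at ht ⊢
    have := XX_le_sq_pos h
    nlinarith [sq_nonneg (t - 1)]
  · rw [abs_of_nonpos h] at ht ⊢
    unfold XX
    have h1 : Real.exp t = Real.exp (-1) * Real.exp (t + 1) := by rw [← Real.exp_add]; congr 1; ring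
    have h2 := Real.add_one_le_exp (t + 1)
    have h3 : (0.36 : ℝ) ≤ Real.exp (-1) := by
      have := Real.exp_neg_one_gt_d9
      linarith
    have h4 : Real.exp (-1) ≤ (0.37 : ℝ) := by
      have := Real.exp_neg_one_lt_d9
      linarith
    have h5 : 0 ≤ Real.exp t := (Real.exp_pos t).le
    rcases le_total (-2) t with h6 | h6
    · have h7 : Real.exp (-1) * (t + 2) ≤ Real.exp t := by
        rw [h1]
        exact mul_le_mul_of_nonneg_left (by linarith) (Real.exp_pos _).le
      have h8 : 0.36 * (t + 2) ≤ Real.exp (-1) * (t + 2) := mul_le_mul_of_nonneg_right h3 (by linarith)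
      linarith
    · linarith

private lemma EE_far {p : ℝ} (hp : 1 ≤ p) {t : ℝ} (ht : 1 ≤ |t|) :
    EE p t ≤ Real.exp (-(p / 4)) * (Real.exp (1 / 2) * Real.exp (-(1 / 2) * |t|)) := by
  unfold EE
  rw [← Real.exp_add, ← Real.exp_add]
  apply Real.exp_le_exp.2
  have h1 := XX_far ht
  have h2 : p * XX t ≤ p * (-(1 / 4) - (|t| - 1) / 2) := mul_le_mul_of_nonneg_left h1 (by linarith)
  nlinarith

private lemma EE_dom {p : ℝ} (hp : 1 ≤ p) (t : ℝ) :
    EE p t ≤ Real.exp (-(p / 4) * t ^ 2) + Real.exp (-(p / 4)) * (Real.exp (1 / 2) * Real.exp (-(1 / 2) * |t|)) := by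
  rcases le_total |t| 1 with h | h
  · have h1 : EE p t ≤ Real.exp (-(p / 4) * t ^ 2) := by
      unfold EE
      apply Real.exp_le_exp.2
      have := mul_le_mul_of_nonneg_left (XX_le_sq h) (show 0 ≤ p by linarith)
      linarith
    have h2 : 0 ≤ Real.exp (-(p / 4)) * (Real.exp (1 / 2) * Real.exp (-(1 / 2) * |t|)) := by positivity
    linarith
  · have h1 := EE_far hp h
    have h2 : 0 ≤ Real.exp (-(p / 4) * t ^ 2) := (Real.exp_pos _).le
    linarith

private lemma int_abs : Integrable (fun t : ℝ => Real.exp (-(1 / 2) * |t|)) :=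
  Pool.Agent.Helper13.Mob.integrable_exp_abs (by norm_num)

/-- Z5: moments of the kernel -/
theorem EE_mom : ∃ C : ℝ, 0 ≤ C ∧ ∀ m : ℝ, 64 ≤ m →
    Integrable (fun t : ℝ => Real.exp (-(t / 2)) * EE m t * ell t) ∧
    ∫ t : ℝ, Real.exp (-(t / 2)) * EE m t * ell t ≤ C / √m ∧
    ∫ t in (Icc (-1:ℝ) 1)ᶜ, Real.exp (-(t / 2)) * EE m t * ell t ≤ C * Real.exp (-(m / 16)) := by
  set K : ℝ := ∫ t : ℝ, Real.exp (-(1 / 2) * |t|) with hK
  have hK0 : 0 ≤ K := integral_nonneg fun t => (Real.exp_pos _).le
  refine ⟨4 * (√(8 * Real.pi) + 8 * (Real.exp (1 / 2) * K)), by positivity, fun m hm => ?_⟩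
  have hm0 : 0 < m := by linarith
  have hp : 1 ≤ m - 4 := by linarith
  have hp4 : 0 < (m - 4) / 4 := by linarith
  -- the pointwise bound
  have hdom : ∀ t : ℝ, Real.exp (-(t / 2)) * EE m t * ell t ≤ 4 * EE (m - 4) t := by
    intro t
    have h0 : EE m t = EE 4 t * EE (m - 4) t := by
      rw [← EE_add]; congr 1; ring
    rw [h0]
    have h1 := mul_le_mul_of_nonneg_right (key1 t) (EE_pos (m - 4) t).le
    calc _ = Real.exp (-(t / 2)) * ell t * EE 4 t * EE (m - 4) t := by ring
      _ ≤ _ := h1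
  have hnn : ∀ t : ℝ, 0 ≤ Real.exp (-(t / 2)) * EE m t * ell t := fun t =>
    mul_nonneg (mul_nonneg (Real.exp_pos _).le (EE_pos m t).le) (ell_nonneg t)
  have hg : Integrable (fun t : ℝ => Real.exp (-((m - 4) / 4) * t ^ 2)) := integrable_exp_neg_mul_sq hp4
  have hd : Integrable (fun t : ℝ => 4 * (Real.exp (-((m - 4) / 4) * t ^ 2) +
      Real.exp (-((m - 4) / 4)) * (Real.exp (1 / 2) * Real.exp (-(1 / 2) * |t|)))) :=
    (hg.add ((int_abs.const_mul _).const_mul _)).const_mul 4
  have hmeas : Continuous fun t : ℝ => Real.exp (-(t / 2)) * EE m t * ell t :=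
    ((Real.continuous_exp.comp (by fun_prop)).mul (EE_cont m)).mul ell_cont
  have hi : Integrable (fun t : ℝ => Real.exp (-(t / 2)) * EE m t * ell t) := by
    refine Integrable.mono' hd hmeas.aestronglyMeasurable ?_
    refine Filter.Eventually.of_forall fun t => ?_
    rw [Real.norm_of_nonneg (hnn t)]
    exact (hdom t).trans (mul_le_mul_of_nonneg_left (EE_dom hp t) (by norm_num))
  have hexp : Real.exp (-((m - 4) / 4)) ≤ 8 / √m := by
    have h1 : Real.exp (-((m - 4) / 4)) ≤ 1 / (m / 8) := by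
      rw [Real.exp_neg, ← one_div]
      apply one_div_le_one_div_of_le (by positivity)
      have := Real.add_one_le_exp ((m - 4) / 4)
      linarith
    have h2 : √m ≤ m := by
      rw [Real.sqrt_le_left (by linarith)]
      nlinarith
    calc _ ≤ 1 / (m / 8) := h1
      _ = 8 / m := by rw [one_div_div]
      _ ≤ 8 / √m := div_le_div_of_nonneg_left (by norm_num) (Real.sqrt_pos.2 hm0) h2
  refine ⟨hi, ?_, ?_⟩
  · calc ∫ t : ℝ, Real.exp (-(t / 2)) * EE m t * ell t
        ≤ ∫ t : ℝ, 4 * (Real.exp (-((m - 4) / 4) * t ^ 2) +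
            Real.exp (-((m - 4) / 4)) * (Real.exp (1 / 2) * Real.exp (-(1 / 2) * |t|))) :=
          integral_mono hi hd fun t => (hdom t).trans (mul_le_mul_of_nonneg_left (EE_dom hp t) (by norm_num))
      _ = 4 * (√(Real.pi / ((m - 4) / 4)) + Real.exp (-((m - 4) / 4)) * (Real.exp (1 / 2) * K)) := by
          rw [integral_const_mul, integral_add hg ((int_abs.const_mul _).const_mul _), integral_const_mul,
            integral_const_mul, integral_gaussian]
      _ ≤ 4 * (√(8 * Real.pi) / √m + (8 / √m) * (Real.exp (1 / 2) * K)) := by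
          have h1 : √(Real.pi / ((m - 4) / 4)) ≤ √(8 * Real.pi) / √m := by
            rw [← Real.sqrt_div' _ hm0.le]
            apply Real.sqrt_le_sqrt
            rw [div_le_div_iff₀ hp4 hm0]
            have := Real.pi_pos
            nlinarith
          have h2 : Real.exp (-((m - 4) / 4)) * (Real.exp (1 / 2) * K) ≤ (8 / √m) * (Real.exp (1 / 2) * K) :=
            mul_le_mul_of_nonneg_right hexp (by positivity)
          linarith
      _ = _ := by ring
  · calc ∫ t in (Icc (-1:ℝ) 1)ᶜ, Real.exp (-(t / 2)) * EE m t * ell t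
        ≤ ∫ t in (Icc (-1:ℝ) 1)ᶜ, 4 * (Real.exp (-((m - 4) / 4)) * (Real.exp (1 / 2) * Real.exp (-(1 / 2) * |t|))) := by
          apply setIntegral_mono_on hi.integrableOn
            (((int_abs.const_mul _).const_mul _).const_mul 4).integrableOn measurableSet_Icc.compl
          intro t ht
          have h1 : 1 ≤ |t| := by
            by_contra h
            push Not at h
            exact ht ⟨by linarith [(abs_lt.1 h).1], (abs_lt.1 h).2.le⟩
          exact (hdom t).trans (mul_le_mul_of_nonneg_left (EE_far hp h1) (by norm_num))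
      _ ≤ ∫ t : ℝ, 4 * (Real.exp (-((m - 4) / 4)) * (Real.exp (1 / 2) * Real.exp (-(1 / 2) * |t|))) := by
          apply setIntegral_le_integral (((int_abs.const_mul _).const_mul _).const_mul 4)
          exact Filter.Eventually.of_forall fun t => by positivity
      _ = 4 * (Real.exp (-((m - 4) / 4)) * (Real.exp (1 / 2) * K)) := by
          rw [integral_const_mul, integral_const_mul, integral_const_mul]
      _ ≤ 4 * (Real.exp (-(m / 16)) * (Real.exp (1 / 2) * K)) := by
          have h1 : Real.exp (-((m - 4) / 4)) ≤ Real.exp (-(m / 16)) := Real.exp_le_exp.2 (by linarith)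
          gcongr
      _ ≤ _ := by
          have h2 : 0 ≤ √(8 * Real.pi) * Real.exp (-(m / 16)) := by positivity
          have h3 : 0 ≤ Real.exp (1 / 2) * K * Real.exp (-(m / 16)) := by positivity
          nlinarith

end Pool.Agent.Helper63.EQ
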